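import Mathlib

namespace Pool.Agent.P.MP_ba77d1_co

/-- `R n k`: the real `n × n` matrices with entries in `{0, 1}` and exactly `k` ones in every row. -/
def R (n k : ℕ) : Set (Matrix (Fin n) (Fin n) ℝ) :=
  {A | (∀ i j, A i j = 0 ∨ A i j = 1) ∧ ∀ i, {j | A i j = 1}.ncard = k}

/-- `MR n k`: the largest determinant of a matrix in `R n k`. -/
noncomputable def MR (n k : ℕ) : ℝ :=
  sSup (Matrix.det '' R n k)

/-- The growth constant `(k ^ 2 * (k - 1) ^ (k ^ 2 - k)) ^ (1 / (2 * (k ^ 2 - k + 1)))`. -/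
noncomputable def growth (k : ℕ) : ℝ :=
  ((k : ℝ) ^ 2 * ((k : ℝ) - 1) ^ (k ^ 2 - k)) ^ (1 / (2 * ((k : ℝ) ^ 2 - k + 1)))

end Pool.Agent.P.MP_ba77d1_co
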