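import Mathlib

/-! Incidence matrices of Desarguesian projective planes and padding. -/

namespace Pool.Agent.P.MP_ba77d1_co

open Matrix Finset Configuration
open scoped LinearAlgebra.Projectivization

lemma det_of_gram {κ : Type*} [Fintype κ] [DecidableEq κ] (F : Matrix κ κ ℝ) (q : ℕ) (hq : 0 < q)
    (hc : Fintype.card κ = q ^ 2 + q + 1)
    (hF : ∀ l m, (F * Fᵀ) l m = if l = m then (q : ℝ) + 1 else 1) :
    F.det ^ 2 = ((q : ℝ) + 1) ^ 2 * (q : ℝ) ^ (q ^ 2 + q) := by
  have hq' : (q : ℝ) ≠ 0 := by positivity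
  have h1 : F * Fᵀ = (q : ℝ) • (1 + replicateCol Unit (fun _ : κ => (q : ℝ)⁻¹)
      * replicateRow Unit (fun _ : κ => (1 : ℝ))) := by
    ext l m
    rw [hF]
    simp only [Matrix.smul_apply, Matrix.add_apply, one_apply, mul_apply, replicateCol_apply,
      replicateRow_apply, smul_eq_mul]
    split_ifs <;> simp <;> field_simp
  have h2 : F.det ^ 2 = (F * Fᵀ).det := by rw [det_mul, det_transpose, sq]
  rw [h2, h1, det_smul, det_one_add_replicateCol_mul_replicateRow, hc]
  simp only [dotProduct, one_mul, sum_const, Finset.card_univ, hc, nsmul_eq_mul]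
  push_cast
  rw [pow_succ]
  field_simp
  ring

lemma exists_block (q : ℕ) (hq : IsPrimePow q) :
    ∃ F : Matrix (Fin (q ^ 2 + q + 1)) (Fin (q ^ 2 + q + 1)) ℝ,
      (∀ i j, F i j = 0 ∨ F i j = 1) ∧ (∀ i, ∑ j, F i j = (q : ℝ) + 1) ∧
      F.det ^ 2 = ((q : ℝ) + 1) ^ 2 * (q : ℝ) ^ (q ^ 2 + q) := by
  classical
  obtain ⟨p, e, hp, he, rfl⟩ := (isPrimePow_nat_iff q).1 hq
  haveI : Fact p.Prime := ⟨hp⟩
  set K := GaloisField p e
  have hK : Nat.card K = p ^ e := GaloisField.card p e he.ne'
  set q := p ^ e with hqdef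
  set P := ℙ K (Fin 3 → K)
  letI : Fintype P := Fintype.ofFinite P
  have hP : Fintype.card P = q ^ 2 + q + 1 := by
    rw [← Nat.card_eq_fintype_card, Projectivization.card_of_finrank K (Fin 3 → K) (n := 3)
      (by simp), hK]
    simp [sum_range_succ]; ring
  have hord : ProjectivePlane.order P P = q := by
    have h1 := ProjectivePlane.card_points P P
    rw [hP] at h1
    rcases lt_trichotomy (ProjectivePlane.order P P) q with h | h | h
    · nlinarith
    · exact h
    · nlinarith
  let F : Matrix P P ℝ := Matrix.of fun l x => if x ∈ l then 1 else 0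
  have hrow : ∀ l, ∑ x, F l x = (q : ℝ) + 1 := by
    intro l
    have h1 := ProjectivePlane.pointCount_eq P l
    rw [hord, pointCount, Nat.card_eq_fintype_card, Fintype.card_subtype] at h1
    simp only [F, of_apply, sum_boole]
    exact_mod_cast h1
  have hF : ∀ l m, (F * Fᵀ) l m = if l = m then (q : ℝ) + 1 else 1 := by
    intro l m
    split_ifs with h
    · subst h
      rw [← hrow l, mul_apply]
      refine sum_congr rfl fun x _ => ?_
      simp only [F, of_apply, transpose_apply]
      split_ifs <;> simp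
    · obtain ⟨x, hx, hu⟩ := HasPoints.existsUnique_point P P l m h
      rw [mul_apply, sum_eq_single x]
      · simp [F, hx.1, hx.2]
      · intro y _ hy
        simp only [F, of_apply, transpose_apply]
        by_cases h1 : y ∈ l
        · by_cases h2 : y ∈ m
          · exact absurd (hu y ⟨h1, h2⟩) hy
          · simp [h2]
        · simp [h1]
      · simp
  have hdet := det_of_gram F q hq.pos hP hF
  let ε : P ≃ Fin (q ^ 2 + q + 1) := Fintype.equivFinOfCardEq hP
  refine ⟨F.submatrix ε.symm ε.symm, fun i j => ?_, fun i => ?_, ?_⟩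
  · simp only [F, submatrix_apply, of_apply]
    split_ifs <;> simp
  · simp only [submatrix_apply]
    rw [Equiv.sum_comp ε.symm (fun x => F (ε.symm i) x), hrow]
  · rw [det_submatrix_equiv_self, hdet]

lemma exists_padded {N : ℕ} (F : Matrix (Fin N) (Fin N) ℝ) (q t n : ℕ)
    (h01 : ∀ i j, F i j = 0 ∨ F i j = 1) (hrow : ∀ i, ∑ j, F i j = (q : ℝ) + 1)
    (hq : q ≤ N * (2 * t)) (hn : N * (2 * t) ≤ n) :
    ∃ A : Matrix (Fin n) (Fin n) ℝ, (∀ i j, A i j = 0 ∨ A i j = 1) ∧
      (∀ i, ∑ j, A i j = (q : ℝ) + 1) ∧ A.det = (F.det ^ 2) ^ t := by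
  classical
  obtain ⟨S, -, hS⟩ := Finset.exists_subset_card_eq (s := (univ : Finset (Fin N × Fin (2 * t))))
    (n := q) (by simpa using hq)
  let X : Matrix ((Fin N × Fin (2 * t)) ⊕ Fin (n - N * (2 * t)))
      ((Fin N × Fin (2 * t)) ⊕ Fin (n - N * (2 * t))) ℝ :=
    fromBlocks (blockDiagonal fun _ => F) 0 (Matrix.of fun _ j => if j ∈ S then 1 else 0) 1
  have hc : Fintype.card ((Fin N × Fin (2 * t)) ⊕ Fin (n - N * (2 * t))) = n := by
    simp only [Fintype.card_sum, Fintype.card_prod, Fintype.card_fin]; omega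
  let ε := Fintype.equivFinOfCardEq hc
  have hX01 : ∀ i j, X i j = 0 ∨ X i j = 1 := by
    rintro (⟨i, a⟩ | i) (⟨j, b⟩ | j)
    · simp only [X, fromBlocks_apply₁₁, blockDiagonal_apply]
      split_ifs
      · exact h01 _ _
      · simp
    · simp [X]
    · simp only [X, fromBlocks_apply₂₁, of_apply]
      split_ifs <;> simp
    · simp only [X, fromBlocks_apply₂₂, one_apply]
      split_ifs <;> simp
  have hXrow : ∀ i, ∑ j, X i j = (q : ℝ) + 1 := by
    rintro (⟨i, a⟩ | i)
    · rw [Fintype.sum_sum_type, Fintype.sum_prod_type]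
      simp [X, blockDiagonal_apply, hrow]
    · rw [Fintype.sum_sum_type]
      simp [X, one_apply, hS]
  refine ⟨X.submatrix ε.symm ε.symm, fun i j => hX01 _ _, fun i => ?_, ?_⟩
  · simp only [submatrix_apply]
    rw [Equiv.sum_comp ε.symm (fun x => X (ε.symm i) x), hXrow]
  · rw [det_submatrix_equiv_self]
    simp only [X]
    rw [det_fromBlocks_zero₁₂, det_blockDiagonal]
    simp [← pow_mul]

end Pool.Agent.P.MP_ba77d1_co
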