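import Pool.Agent.P.MP_ba77d1_co.Scalar

/-! The spectral upper bound for determinants of 0-1 matrices with constant row sums. -/

namespace Pool.Agent.P.MP_ba77d1_co

open Real Matrix Finset

variable {ι : Type*} [Fintype ι] [DecidableEq ι]

lemma trace_sq_eq (M : Matrix ι ι ℝ) (hM : M.IsHermitian) :
    (M * M).trace = ∑ i, hM.eigenvalues i ^ 2 := by
  have h := hM.spectral_theorem
  set U := hM.eigenvectorUnitary
  set D : Matrix ι ι ℝ := diagonal (RCLike.ofReal ∘ hM.eigenvalues) with hD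
  have h2 : M * M = Unitary.conjStarAlgAut ℝ _ U (D * D) := by
    rw [map_mul, ← h]
  rw [h2, Unitary.conjStarAlgAut_apply, trace_mul_comm, ← mul_assoc]
  simp [hD, diagonal_mul_diagonal, trace_diagonal, sq]

/-- Spectral lemma: a Gram matrix with spectrum in `(0, α Y]`. -/
lemma spectral_bound (B : Matrix ι ι ℝ) (hdet : B.det ≠ 0) (k α g Y : ℝ) (hα : 0 < α)
    (hk : k = α * Y) (hg0 : 0 ≤ g) (hg : g ≤ 1 / 2) (hY : g * (Y - 1) ^ 2 = Y - 1 - log Y)
    (hB : ∀ x : ι → ℝ, ∑ r, (∑ c, B r c * x c) ^ 2 ≤ k * ∑ c, x c ^ 2) :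
    log (B.det ^ 2) ≤ Fintype.card ι * (log α - 1 - g)
      + (1 / α + 2 * g / α) * (Bᵀ * B).trace - g / α ^ 2 * ((Bᵀ * B) * (Bᵀ * B)).trace := by
  have hM : (Bᵀ * B).IsHermitian := by
    have := isHermitian_conjTranspose_mul_self B
    simpa using this
  have hd : B.det ^ 2 = ∏ i, hM.eigenvalues i := by
    have := hM.det_eq_prod_eigenvalues
    rw [det_mul, det_transpose] at this
    simpa [sq] using this
  have hne : ∀ i, hM.eigenvalues i ≠ 0 := by
    intro i hi
    have : B.det ^ 2 = 0 := by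
      rw [hd]; exact prod_eq_zero (mem_univ i) hi
    exact hdet (pow_eq_zero_iff two_ne_zero |>.1 this)
  have hq : ∀ i, hM.eigenvalues i = ∑ r, (∑ c, B r c * (hM.eigenvectorBasis i) c) ^ 2 := by
    intro i
    rw [hM.eigenvalues_eq i, ← mulVec_mulVec]
    simp only [RCLike.re_to_real, star_trivial]
    rw [dotProduct_mulVec, vecMul_transpose]
    simp [dotProduct, mulVec, sq]
  have hn : ∀ i, ∑ c, (hM.eigenvectorBasis i) c ^ 2 = 1 := by
    intro i
    have h1 := hM.eigenvectorBasis.orthonormal.1 i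
    have h2 := EuclideanSpace.real_norm_sq_eq (hM.eigenvectorBasis i)
    rw [h1] at h2
    simpa using h2.symm
  have hpos : ∀ i, 0 < hM.eigenvalues i := by
    intro i
    refine lt_of_le_of_ne ?_ (hne i).symm
    rw [hq i]; positivity
  have hle : ∀ i, hM.eigenvalues i ≤ k := by
    intro i
    have := hB (hM.eigenvectorBasis i)
    rw [hn i, ← hq i] at this
    linarith
  have htr : (Bᵀ * B).trace = ∑ i, hM.eigenvalues i := by
    simpa using hM.trace_eq_sum_eigenvalues
  rw [hd, log_prod (fun i _ => hne i), htr, trace_sq_eq _ hM, mul_sum, mul_sum,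
    ← Finset.card_univ, ← nsmul_eq_mul, ← sum_const, ← sum_add_distrib, ← sum_sub_distrib]
  refine sum_le_sum fun i _ => ?_
  set μ := hM.eigenvalues i
  have hy : 0 < μ / α := div_pos (hpos i) hα
  have hyY : μ / α ≤ Y := by
    rw [div_le_iff₀ hα]; have := hle i; linarith
  have h1 := log_le_quad g Y (μ / α) hg0 hg hY hy hyY
  rw [log_div (hne i) hα.ne'] at h1
  have h2 : μ / α - 1 - g * (μ / α - 1) ^ 2
      = -1 - g + (1 / α + 2 * g / α) * μ - g / α ^ 2 * μ ^ 2 := by
    field_simp; ring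
  linarith

omit [DecidableEq ι] in
lemma sum01_le_sq (a : ι → ℝ) (ha : ∀ r, a r = 0 ∨ a r = 1) : ∑ r, a r ≤ (∑ r, a r) ^ 2 := by
  have h1 : ∑ r, a r = ∑ r, a r ^ 2 := by
    refine sum_congr rfl fun r _ => ?_
    rcases ha r with h | h <;> simp [h]
  have h2 : ∑ r, a r ^ 2 ≤ (∑ r, a r) ^ 2 :=
    sum_sq_le_sq_sum_of_nonneg fun r _ => by rcases ha r with h | h <;> simp [h]
  linarith

theorem log_det_le (A : Matrix ι ι ℝ) (k : ℝ) (hk : 3 ≤ k) (h01 : ∀ i j, A i j = 0 ∨ A i j = 1)
    (hrow : ∀ i, ∑ j, A i j = k) (hdet : A.det ≠ 0) :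
    log (A.det ^ 2) ≤ Fintype.card ι *
      (log (k - 1) + log (k ^ 2 / (k - 1)) / (k ^ 2 - k + 1)) := by
  have hk0 : 0 < k := by linarith
  have hk1 : 0 < k - 1 := by linarith
  have hN : 0 < k ^ 2 - k + 1 := by nlinarith
  have hnn : ∀ i j, 0 ≤ A i j := fun i j => by rcases h01 i j with h | h <;> simp [h]
  have hsq : ∀ i j, A i j * A i j = A i j := fun i j => by rcases h01 i j with h | h <;> simp [h]
  set d : ι → ℝ := fun c => ∑ r, A r c with hd
  have hd1 : ∀ c, 1 ≤ d c := by
    intro c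
    by_contra h
    apply hdet
    apply det_eq_zero_of_column_eq_zero c
    intro r
    rcases h01 r c with h0 | h0
    · exact h0
    · exfalso
      apply h
      rw [← h0]
      exact single_le_sum (f := fun r => A r c) (fun r _ => hnn r c) (mem_univ r)
  have hd0 : ∀ c, 0 < d c := fun c => lt_of_lt_of_le one_pos (hd1 c)
  have hsum : ∑ c, d c = Fintype.card ι * k := by
    simp only [hd]
    rw [sum_comm]
    simp [hrow]
  set w : ι → ℝ := fun c => (√(d c))⁻¹ with hw
  have hw2 : ∀ c, w c * w c = (d c)⁻¹ := by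
    intro c
    simp only [hw]
    rw [← mul_inv, mul_self_sqrt (hd0 c).le]
  have hw0 : ∀ c, w c ≠ 0 := fun c => inv_ne_zero (sqrt_pos.2 (hd0 c)).ne'
  set B : Matrix ι ι ℝ := A * diagonal w with hB
  have hBe : ∀ r c, B r c = A r c * w c := fun r c => by simp [hB]
  have hBdet : B.det = A.det * ∏ c, w c := by simp [hB]
  have hBne : B.det ≠ 0 := by
    rw [hBdet]; exact mul_ne_zero hdet (prod_ne_zero_iff.2 fun c _ => hw0 c)
  have hlog : log (A.det ^ 2) = log (B.det ^ 2) + ∑ c, log (d c) := by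
    have h1 : A.det ^ 2 = B.det ^ 2 * ∏ c, d c := by
      rw [hBdet, mul_pow, mul_assoc, ← prod_pow, ← prod_mul_distrib]
      have : ∏ c, w c ^ 2 * d c = 1 := by
        refine prod_eq_one fun c _ => ?_
        rw [sq, hw2, inv_mul_cancel₀ (hd0 c).ne']
      rw [this, mul_one]
    rw [h1, log_mul (pow_ne_zero 2 hBne) (prod_ne_zero_iff.2 fun c _ => (hd0 c).ne'),
      log_prod fun c _ => (hd0 c).ne']
  set G : ι → ι → ℝ := fun i j => ∑ r, A r i * A r j with hG
  have hMe : ∀ i j, (Bᵀ * B) i j = G i j * (w i * w j) := by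
    intro i j
    simp only [mul_apply, transpose_apply, hBe, hG, sum_mul]
    refine sum_congr rfl fun r _ => by ring
  have hGd : ∀ i, G i i = d i := fun i => by simp only [hG, hd, hsq]
  have hGs : ∀ i j, G i j = G j i := fun i j => by
    simp only [hG]; exact sum_congr rfl fun r _ => mul_comm _ _
  have hGr : ∀ i, ∑ j, G i j = k * d i := by
    intro i
    simp only [hG, hd]
    rw [sum_comm, mul_sum]
    refine sum_congr rfl fun r _ => ?_
    rw [← mul_sum, hrow, mul_comm]
  have hG0 : ∀ i j, 0 ≤ G i j := fun i j => sum_nonneg fun r _ => mul_nonneg (hnn _ _) (hnn _ _)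
  have hG2 : ∀ i j, G i j ≤ G i j ^ 2 := fun i j =>
    sum01_le_sq (fun r => A r i * A r j) fun r => by
      rcases h01 r i with h | h <;> rcases h01 r j with h' | h' <;> simp [h, h']
  have htr : (Bᵀ * B).trace = Fintype.card ι := by
    simp only [trace, diag_apply, hMe, hGd, hw2]
    rw [sum_congr rfl fun i _ => mul_inv_cancel₀ (hd0 i).ne']
    simp
  have htr2 : ((Bᵀ * B) * (Bᵀ * B)).trace = ∑ i, ∑ j, G i j ^ 2 * ((d i)⁻¹ * (d j)⁻¹) := by
    simp only [trace, diag_apply]
    refine sum_congr rfl fun i _ => ?_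
    rw [mul_apply]
    refine sum_congr rfl fun j _ => ?_
    rw [hMe, hMe, hGs j i, ← hw2, ← hw2]; ring
  -- the penalty
  set l : ι → ℝ := fun c => (1 - k / d c) + (k / d c - 1) ^ 2 / 2 with hl
  set W : ℝ := ∑ c, (d c / k - 1) ^ 2 / (2 * (d c / k)) with hW
  have hdl : ∑ c, d c * l c = k * W := by
    have h1 : ∀ c, d c * l c = (d c - k) + k * ((d c / k - 1) ^ 2 / (2 * (d c / k))) := by
      intro c
      have := (hd0 c).ne'
      simp only [hl]
      field_simp
      ring
    rw [sum_congr rfl fun c _ => h1 c, sum_add_distrib, sum_sub_distrib, hsum, ← mul_sum]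
    simp [hW]
  have hT : Fintype.card ι * (2 * k ^ 2 - k) - 2 * (k - 1) * (k * W)
      ≤ k ^ 2 * ((Bᵀ * B) * (Bᵀ * B)).trace := by
    have h1 : ∀ i j, G i j * (1 - l i - l j) + (if i = j then k ^ 2 - d i * (1 - 2 * l i) else 0)
        ≤ k ^ 2 * (G i j ^ 2 * ((d i)⁻¹ * (d j)⁻¹)) := by
      intro i j
      split_ifs with hij
      · subst hij
        rw [hGd]
        have := (hd0 i).ne'
        apply le_of_eq
        field_simp
        ring
      · have h2 : 1 - l i - l j ≤ k / d i * (k / d j) := by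
          simp only [hl]
          nlinarith [sq_nonneg (k / d i - 1 + (k / d j - 1))]
        have h3 : 0 ≤ k / d i * (k / d j) :=
          mul_nonneg (div_pos hk0 (hd0 i)).le (div_pos hk0 (hd0 j)).le
        have h4 : k ^ 2 * (G i j ^ 2 * ((d i)⁻¹ * (d j)⁻¹)) = G i j ^ 2 * (k / d i * (k / d j)) := by
          simp only [div_eq_mul_inv]; ring
        rw [h4, add_zero]
        calc G i j * (1 - l i - l j) ≤ G i j * (k / d i * (k / d j)) :=
              mul_le_mul_of_nonneg_left h2 (hG0 i j)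
          _ ≤ G i j ^ 2 * (k / d i * (k / d j)) := mul_le_mul_of_nonneg_right (hG2 i j) h3
    have h5 : ∑ i, ∑ j, (G i j * (1 - l i - l j)
        + (if i = j then k ^ 2 - d i * (1 - 2 * l i) else 0))
        = Fintype.card ι * (2 * k ^ 2 - k) - 2 * (k - 1) * (k * W) := by
      have e1 : ∑ i, ∑ j, G i j = k * (Fintype.card ι * k) := by
        rw [sum_congr rfl fun i _ => hGr i, ← mul_sum, hsum]
      have e2 : ∑ i, ∑ j, G i j * l i = k * (k * W) := by
        rw [← hdl, mul_sum]
        refine sum_congr rfl fun i _ => ?_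
        rw [← sum_mul, hGr]; ring
      have e3 : ∑ i, ∑ j, G i j * l j = k * (k * W) := by
        rw [sum_comm, ← e2]
        refine sum_congr rfl fun i _ => sum_congr rfl fun j _ => by rw [hGs]
      have e4 : ∑ i, (k ^ 2 - d i * (1 - 2 * l i))
          = Fintype.card ι * k ^ 2 - Fintype.card ι * k + 2 * (k * W) := by
        have : ∀ i, k ^ 2 - d i * (1 - 2 * l i) = k ^ 2 - d i + 2 * (d i * l i) := fun i => by ring
        rw [sum_congr rfl fun i _ => this i, sum_add_distrib, sum_sub_distrib, hsum, ← mul_sum, hdl]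
        simp
      simp only [sum_add_distrib, sum_ite_eq, mem_univ, if_true, mul_sub, mul_one,
        sum_sub_distrib] at e4 ⊢
      rw [e1, e2, e3]
      linarith
    rw [← h5, htr2, mul_sum]
    refine sum_le_sum fun i _ => ?_
    rw [mul_sum]
    exact sum_le_sum fun j _ => h1 i j
  -- constants
  set L := log (k ^ 2 / (k - 1)) with hL
  set N := k ^ 2 - k + 1 with hNdef
  set α := (k - 1) / k with hα
  set Y := k ^ 2 / (k - 1) with hY
  set g := (N / (k - 1) - L) * (k - 1) ^ 2 / N ^ 2 with hg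
  have hα0 : 0 < α := div_pos hk1 hk0
  have hY1 : Y - 1 = N / (k - 1) := by simp only [hY, hNdef]; field_simp; ring
  have hgY : g * (Y - 1) ^ 2 = Y - 1 - log Y := by
    rw [hY1, hg, ← hL]; field_simp
  have hg0 : 0 ≤ g := by
    have h1 : L ≤ Y - 1 := log_le_sub_one_of_pos (by positivity)
    rw [hY1] at h1
    exact div_nonneg (mul_nonneg (by linarith) (sq_nonneg _)) (sq_nonneg _)
  have hθ : (2 * g / α) * (k + 1) ≤ 2 := by
    have h1 := log_lower k hk
    rw [← hL, ← hNdef] at h1
    have h2 : (2 * g / α) * (k + 1) = 2 * ((N - (k - 1) * L) * (k + 1) * k) / N ^ 2 := by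
      simp only [hg, hα]; field_simp
    rw [h2, div_le_iff₀ (by positivity)]
    have h3 : N * (k ^ 2 + k - N) = N * (2 * k - 1) := by simp only [hNdef]; ring
    nlinarith
  have hg2 : g ≤ 1 / 2 := by
    have h1 : α ≤ 1 := by rw [hα, div_le_one hk0]; linarith
    have h2 : 2 * g ≤ 2 * g / α := by
      rw [le_div_iff₀ hα0]; nlinarith
    have h3 : 0 ≤ 2 * g / α := by positivity
    nlinarith
  have hspec := spectral_bound B hBne k α g Y hα0 (by simp only [hα, hY]; field_simp) hg0 hg2 hgY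
    (by
      intro x
      have h1 : ∀ r, (∑ c, B r c * x c) ^ 2 ≤ k * ∑ c, A r c * ((d c)⁻¹ * x c ^ 2) := by
        intro r
        have h2 := sum_mul_sq_le_sq_mul_sq univ (fun c => A r c) (fun c => A r c * (w c * x c))
        have h3 : ∑ c, B r c * x c = ∑ c, A r c * (A r c * (w c * x c)) :=
          sum_congr rfl fun c _ => by rw [hBe, ← mul_assoc (A r c) (A r c), hsq]; ring
        have h4 : ∑ c, A r c ^ 2 = k := by
          rw [← hrow r]; exact sum_congr rfl fun c _ => by rw [sq, hsq]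
        have h5 : ∑ c, (A r c * (w c * x c)) ^ 2 = ∑ c, A r c * ((d c)⁻¹ * x c ^ 2) :=
          sum_congr rfl fun c _ => by
            rw [mul_pow, sq (A r c), hsq, mul_pow, sq (w c), hw2]
        rw [h3, ← h5, ← h4]
        exact h2
      refine le_trans (sum_le_sum fun r _ => h1 r) (le_of_eq ?_)
      rw [← mul_sum, sum_comm]
      congr 1
      refine sum_congr rfl fun c _ => ?_
      rw [← sum_mul, ← mul_assoc]
      change d c * (d c)⁻¹ * x c ^ 2 = x c ^ 2
      rw [mul_inv_cancel₀ (hd0 c).ne', one_mul])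
  have hcol : ∑ c, log (d c) ≤ Fintype.card ι * log k - (2 * g / α) * W := by
    have h1 : ∀ c, log (d c) ≤ log k + (d c / k - 1)
        - (2 * g / α) * ((d c / k - 1) ^ 2 / (2 * (d c / k))) := by
      intro c
      have h2 := log_le_col k (2 * g / α) (d c / k) (by linarith) hθ
        (by rw [div_mul_cancel₀ _ hk0.ne']; exact hd1 c)
      rw [log_div (hd0 c).ne' hk0.ne'] at h2
      linarith
    refine le_trans (sum_le_sum fun c _ => h1 c) (le_of_eq ?_)
    rw [sum_sub_distrib, sum_add_distrib, sum_sub_distrib, ← sum_div, hsum, ← mul_sum]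
    simp only [sum_const, Finset.card_univ, nsmul_eq_mul, mul_one, hW]
    field_simp
    ring
  set T := ((Bᵀ * B) * (Bᵀ * B)).trace
  set n : ℝ := (Fintype.card ι : ℝ)
  have hT2 : n * (1 + α) - 2 * α * W ≤ T := by
    have h1 : n * (1 + α) - 2 * α * W = (n * (2 * k ^ 2 - k) - 2 * (k - 1) * (k * W)) / k ^ 2 := by
      simp only [hα]; field_simp; ring
    rw [h1, div_le_iff₀ (by positivity)]
    linarith
  have hT3 : g / α ^ 2 * (n * (1 + α) - 2 * α * W) ≤ g / α ^ 2 * T :=
    mul_le_mul_of_nonneg_left hT2 (by positivity)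
  have hlα : log α = log (k - 1) - log k := log_div hk1.ne' hk0.ne'
  have hfin : n * (log α - 1 - g) + (1 / α + 2 * g / α) * n
      - g / α ^ 2 * (n * (1 + α) - 2 * α * W) + (n * log k - (2 * g / α) * W)
      = n * (log (k - 1) + L / N) := by
    rw [hlα]
    simp only [hg, hα]
    field_simp
    simp only [hNdef]
    ring
  rw [hlog, ← hfin]
  rw [htr] at hspec
  linarith

end Pool.Agent.P.MP_ba77d1_co
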