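import Pool.Agent.P.MP_ba77d1_co.Defs
import Pool.Agent.P.MP_ba77d1_co.Upper
import Pool.Agent.P.MP_ba77d1_co.Lower

namespace Pool.Agent.P.MP_ba77d1_co

open Real Matrix Finset Filter Topology

lemma sum_eq_ncard {n : ℕ} (a : Fin n → ℝ) (ha : ∀ j, a j = 0 ∨ a j = 1) :
    ∑ j, a j = ({j | a j = 1}.ncard : ℝ) := by
  classical
  have h1 : {j | a j = 1} = ((univ.filter fun j => a j = 1 : Finset (Fin n)) : Set (Fin n)) := by
    ext j; simp
  rw [h1, Set.ncard_coe_finset, ← sum_boole]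
  refine sum_congr rfl fun j _ => ?_
  rcases ha j with h | h <;> simp [h]

lemma mem_R_iff {n k : ℕ} (A : Matrix (Fin n) (Fin n) ℝ) :
    A ∈ R n k ↔ (∀ i j, A i j = 0 ∨ A i j = 1) ∧ ∀ i, ∑ j, A i j = k := by
  constructor
  · rintro ⟨h1, h2⟩
    exact ⟨h1, fun i => by rw [sum_eq_ncard _ (h1 i), h2 i]⟩
  · rintro ⟨h1, h2⟩
    refine ⟨h1, fun i => ?_⟩
    have := h2 i
    rw [sum_eq_ncard _ (h1 i)] at this
    exact_mod_cast this

lemma base_one_le (k : ℕ) (hk : 3 ≤ k) : (1 : ℝ) ≤ (k : ℝ) ^ 2 * ((k : ℝ) - 1) ^ (k ^ 2 - k) := by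
  have h : (3 : ℝ) ≤ k := by exact_mod_cast hk
  exact one_le_mul_of_one_le_of_one_le (one_le_pow₀ (by linarith)) (one_le_pow₀ (by linarith))

lemma one_le_growth (k : ℕ) (hk : 3 ≤ k) : 1 ≤ growth k := by
  have h : (3 : ℝ) ≤ k := by exact_mod_cast hk
  refine one_le_rpow (base_one_le k hk) ?_
  have : 0 < (k : ℝ) ^ 2 - k + 1 := by nlinarith
  positivity

lemma log_growth (k : ℕ) (hk : 3 ≤ k) :
    2 * log (growth k) = log ((k : ℝ) - 1) + log ((k : ℝ) ^ 2 / (k - 1)) / ((k : ℝ) ^ 2 - k + 1) := by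
  have h : (3 : ℝ) ≤ k := by exact_mod_cast hk
  have hN : 0 < (k : ℝ) ^ 2 - k + 1 := by nlinarith
  have hk1 : (0 : ℝ) < k - 1 := by linarith
  have hle : k ≤ k ^ 2 := by nlinarith
  unfold growth
  rw [log_rpow (lt_of_lt_of_le one_pos (base_one_le k hk)), log_mul (by positivity) (by positivity),
    log_div (by positivity) hk1.ne', log_pow ((k : ℝ) - 1), Nat.cast_sub hle]
  push_cast
  field_simp
  ring

theorem abs_det_le (k n : ℕ) (hk : 3 ≤ k) (A : Matrix (Fin n) (Fin n) ℝ) (hA : A ∈ R n k) :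
    |A.det| ≤ growth k ^ n := by
  have hg : 0 < growth k := lt_of_lt_of_le one_pos (one_le_growth k hk)
  by_cases hdet : A.det = 0
  · rw [hdet, abs_zero]; positivity
  obtain ⟨h1, h2⟩ := (mem_R_iff A).1 hA
  have h3 := log_det_le A k (by exact_mod_cast hk) h1 h2 hdet
  rw [← log_growth k hk, Fintype.card_fin, log_pow, ← log_abs] at h3
  rw [← log_le_log_iff (abs_pos.2 hdet) (by positivity), log_pow]
  push_cast at h3
  linarith

lemma growth_pow (q : ℕ) (hq : 2 ≤ q) :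
    growth (q + 1) ^ ((q ^ 2 + q + 1) * 2) = ((q : ℝ) + 1) ^ 2 * (q : ℝ) ^ (q ^ 2 + q) := by
  have hb := base_one_le (q + 1) (by omega)
  have he : (q + 1) ^ 2 - (q + 1) = q ^ 2 + q := by
    have : (q + 1) ^ 2 = q ^ 2 + q + (q + 1) := by ring
    omega
  unfold growth
  rw [← rpow_natCast, ← rpow_mul (by linarith), he]
  have h1 : (1 / (2 * ((((q + 1 : ℕ) : ℝ)) ^ 2 - ((q + 1 : ℕ) : ℝ) + 1)))
      * (((q ^ 2 + q + 1) * 2 : ℕ) : ℝ) = 1 := by
    push_cast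
    have : ((q : ℝ) + 1) ^ 2 - (q + 1) + 1 = q ^ 2 + q + 1 := by ring
    rw [this]
    field_simp
  rw [h1, rpow_one]
  push_cast
  ring

lemma bdd (n k : ℕ) (hk : 3 ≤ k) : ∀ x ∈ Matrix.det '' R n k, x ≤ growth k ^ n := by
  rintro x ⟨A, hA, rfl⟩
  exact le_trans (le_abs_self _) (abs_det_le k n hk A hA)

theorem tendsto_growth (q : ℕ) (hq : IsPrimePow q) :
    Tendsto (fun n : ℕ => MR n (q + 1) ^ (1 / (n : ℝ))) atTop (𝓝 (growth (q + 1))) := by
  have hq2 : 2 ≤ q := hq.two_le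
  have hk : 3 ≤ q + 1 := by omega
  have hex := exists_block q hq
  set N := q ^ 2 + q + 1 with hN
  obtain ⟨F, h01, hrow, hdet⟩ := hex
  set c := growth (q + 1) with hc
  have hc1 : 1 ≤ c := one_le_growth _ hk
  have hc0 : 0 < c := by linarith
  have hN0 : 0 < N * 2 := by positivity
  have key : ∀ n : ℕ, N * 2 ≤ n →
      c ^ (1 - ((N * 2 : ℕ) : ℝ) / n) ≤ MR n (q + 1) ^ (1 / (n : ℝ)) ∧
      MR n (q + 1) ^ (1 / (n : ℝ)) ≤ c := by
    intro n hn
    have hn0 : 0 < n := lt_of_lt_of_le hN0 hn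
    have hn0' : (0 : ℝ) < n := by exact_mod_cast hn0
    set t := n / (N * 2) with ht
    have ht1 : 1 ≤ t := (Nat.one_le_div_iff hN0).2 hn
    have h1 : N * 2 * t ≤ n := Nat.mul_div_le n (N * 2)
    have h2 : n < N * 2 * (t + 1) := Nat.lt_mul_div_succ n hN0
    obtain ⟨A, hA01, hArow, hAdet⟩ := exists_padded F q t n h01 hrow (by nlinarith) (by linarith)
    have hA : A ∈ R n (q + 1) := (mem_R_iff A).2 ⟨hA01, by simpa using hArow⟩
    have hlow : c ^ (N * 2 * t) ≤ MR n (q + 1) := by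
      rw [pow_mul, hc, growth_pow q hq2, ← hdet, ← hAdet]
      exact le_csSup ⟨_, bdd n (q + 1) hk⟩ ⟨A, hA, rfl⟩
    have hup : MR n (q + 1) ≤ c ^ n := csSup_le ⟨_, A, hA, rfl⟩ (bdd n (q + 1) hk)
    have hM0 : 0 ≤ MR n (q + 1) := le_trans (by positivity) hlow
    constructor
    · refine le_trans ?_ (rpow_le_rpow (by positivity) hlow (by positivity))
      rw [← rpow_natCast, ← rpow_mul hc0.le]
      apply rpow_le_rpow_of_exponent_le hc1
      have h3 : (n : ℝ) ≤ ((N * 2 * (t + 1) : ℕ) : ℝ) := by exact_mod_cast h2.le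
      rw [mul_one_div, le_div_iff₀ hn0', sub_mul, div_mul_cancel₀ _ hn0'.ne']
      push_cast at h3 ⊢
      linarith
    · refine le_trans (rpow_le_rpow hM0 hup (by positivity)) (le_of_eq ?_)
      rw [← rpow_natCast, ← rpow_mul hc0.le, mul_one_div_cancel hn0'.ne', rpow_one]
  have hlim : Tendsto (fun n : ℕ => c ^ (1 - ((N * 2 : ℕ) : ℝ) / n)) atTop (𝓝 c) := by
    have h1 : Tendsto (fun n : ℕ => 1 - ((N * 2 : ℕ) : ℝ) / n) atTop (𝓝 (1 - 0)) :=
      tendsto_const_nhds.sub (tendsto_const_div_atTop_nhds_zero_nat _)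
    have h2 := (tendsto_const_nhds (x := c)).rpow h1 (Or.inl hc0.ne')
    simpa using h2
  refine tendsto_of_tendsto_of_tendsto_of_le_of_le' hlim tendsto_const_nhds ?_ ?_
  · filter_upwards [eventually_ge_atTop (N * 2)] with n hn using (key n hn).1
  · filter_upwards [eventually_ge_atTop (N * 2)] with n hn using (key n hn).2

lemma growth_three : growth 3 = (24 : ℝ) ^ (1 / 7 : ℝ) := by
  unfold growth
  have h1 : (((3 : ℕ) : ℝ)) ^ 2 * (((3 : ℕ) : ℝ) - 1) ^ (3 ^ 2 - 3) = (24 : ℝ) ^ (2 : ℝ) := by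
    norm_num
  rw [h1, ← rpow_mul (by norm_num)]
  norm_num

lemma lt_beta : (24 : ℝ) ^ (1 / 7 : ℝ) < (40 / 11 : ℝ) ^ (11 / 36 : ℝ) * (2 : ℝ) ^ (7 / 36 : ℝ) := by
  have h1 : (24 : ℝ) ^ (1 / 7 : ℝ) < 1.6 := by
    apply lt_of_pow_lt_pow_left₀ 7 (by norm_num)
    rw [← rpow_natCast, ← rpow_mul (by norm_num)]
    norm_num
  have h2 : (1.6 : ℝ) < (40 / 11 : ℝ) ^ (11 / 36 : ℝ) * (2 : ℝ) ^ (7 / 36 : ℝ) := by
    apply lt_of_pow_lt_pow_left₀ 36 (by positivity)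
    rw [mul_pow, ← rpow_natCast (_ ^ (11 / 36 : ℝ)), ← rpow_mul (by norm_num),
      ← rpow_natCast (_ ^ (7 / 36 : ℝ)), ← rpow_mul (by norm_num)]
    norm_num
  linarith

theorem limsup_three :
    limsup (fun n : ℕ => MR n 3 ^ (1 / (n : ℝ))) atTop = (24 : ℝ) ^ (1 / 7 : ℝ) := by
  have := (tendsto_growth 2 Nat.prime_two.isPrimePow).limsup_eq
  rw [← growth_three]
  exact this

end Pool.Agent.P.MP_ba77d1_co
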