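import Mathlib

/-! Scalar inequalities for the determinant bound. -/

namespace Pool.Agent.P.MP_ba77d1_co

open Real

lemma mvt_aux (g a b : ℝ) (ha : 0 < a) (hab : a < b) :
    ∃ c, a < c ∧ c < b ∧
      (b - 1 - log b - g * (b - 1) ^ 2) - (a - 1 - log a - g * (a - 1) ^ 2)
        = (b - a) * ((c - 1) * (1 - 2 * g * c) / c) := by
  have hd : ∀ x : ℝ, 0 < x → HasDerivAt (fun y : ℝ => y - 1 - log y - g * (y - 1) ^ 2)
      ((x - 1) * (1 - 2 * g * x) / x) x := by
    intro x hx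
    have h1 : HasDerivAt (fun y : ℝ => y - 1) 1 x := (hasDerivAt_id x).sub_const 1
    have h2 : HasDerivAt log x⁻¹ x := hasDerivAt_log hx.ne'
    have h3 : HasDerivAt (fun y : ℝ => g * (y - 1) ^ 2) (g * (2 * (x - 1))) x := by
      have := (h1.pow 2).const_mul g
      simpa using this
    have h4 := (h1.sub h2).sub h3
    have h5 : (x - 1) * (1 - 2 * g * x) / x = 1 - x⁻¹ - g * (2 * (x - 1)) := by
      field_simp
    rw [h5]
    exact h4
  obtain ⟨c, hc, hc'⟩ := exists_hasDerivAt_eq_slope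
    (fun y : ℝ => y - 1 - log y - g * (y - 1) ^ 2)
    (fun x => (x - 1) * (1 - 2 * g * x) / x) hab
    (fun x hx => (hd x (lt_of_lt_of_le ha hx.1)).continuousAt.continuousWithinAt)
    (fun x hx => hd x (lt_trans ha hx.1))
  refine ⟨c, hc.1, hc.2, ?_⟩
  have hne : b - a ≠ 0 := (sub_pos.2 hab).ne'
  rw [hc']
  field_simp

/-- The quadratic majorant of the logarithm on `(0, Y]`, tangent at `1` and touching at `Y`. -/
lemma log_le_quad (g Y y : ℝ) (hg0 : 0 ≤ g) (hg : g ≤ 1 / 2)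
    (hY : g * (Y - 1) ^ 2 = Y - 1 - log Y) (hy : 0 < y) (hyY : y ≤ Y) :
    log y ≤ y - 1 - g * (y - 1) ^ 2 := by
  rcases lt_trichotomy y 1 with h1 | h1 | h1
  · obtain ⟨c, hc1, hc2, hc⟩ := mvt_aux g y 1 hy h1
    have hc0 : 0 < c := lt_trans hy hc1
    have h2 : (c - 1) * (1 - 2 * g * c) / c ≤ 0 := by
      apply div_nonpos_of_nonpos_of_nonneg _ hc0.le
      apply mul_nonpos_of_nonpos_of_nonneg (by linarith)
      nlinarith
    have h3 : (1 - y) * ((c - 1) * (1 - 2 * g * c) / c) ≤ 0 :=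
      mul_nonpos_of_nonneg_of_nonpos (by linarith) h2
    rw [log_one] at hc
    linarith
  · subst h1; simp
  · by_cases h : 2 * g * y ≤ 1
    · obtain ⟨c, hc1, hc2, hc⟩ := mvt_aux g 1 y one_pos h1
      have hc0 : 0 < c := by linarith
      have h2 : 0 ≤ (c - 1) * (1 - 2 * g * c) / c := by
        apply div_nonneg _ hc0.le
        apply mul_nonneg (by linarith)
        nlinarith
      have h3 : 0 ≤ (y - 1) * ((c - 1) * (1 - 2 * g * c) / c) :=
        mul_nonneg (by linarith) h2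
      rw [log_one] at hc
      linarith
    · push Not at h
      rcases eq_or_lt_of_le hyY with h4 | h4
      · subst h4; linarith
      · obtain ⟨c, hc1, hc2, hc⟩ := mvt_aux g y Y hy h4
        have hc0 : 0 < c := by linarith
        have h2 : (c - 1) * (1 - 2 * g * c) / c ≤ 0 := by
          apply div_nonpos_of_nonpos_of_nonneg _ hc0.le
          apply mul_nonpos_of_nonneg_of_nonpos (by linarith)
          nlinarith
        have h3 : (Y - y) * ((c - 1) * (1 - 2 * g * c) / c) ≤ 0 :=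
          mul_nonpos_of_nonneg_of_nonpos (by linarith) h2
        linarith

/-- The column inequality. -/
lemma log_le_col (k θ s : ℝ) (hk : 1 ≤ k) (hθ : θ * (k + 1) ≤ 2) (hs : 1 ≤ s * k) :
    log s ≤ (s - 1) - θ * ((s - 1) ^ 2 / (2 * s)) := by
  have hs0 : 0 < s := by
    by_contra h
    push Not at h
    nlinarith
  have hW : 0 ≤ (s - 1) ^ 2 / (2 * s) := by positivity
  rcases le_total 1 s with h1 | h1
  · have hθ1 : θ ≤ 1 := by nlinarith
    have h2 : log s ≤ sinh (log s) := self_le_sinh_iff.2 (log_nonneg h1)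
    rw [sinh_log hs0] at h2
    have h3 : (s - s⁻¹) / 2 = (s - 1) - (s - 1) ^ 2 / (2 * s) := by
      field_simp; ring
    nlinarith
  · have hx : 0 ≤ s⁻¹ - 1 := by
      have : 1 ≤ s⁻¹ := (one_le_inv₀ hs0).2 h1
      linarith
    have h2 := le_log_one_add_of_nonneg hx
    have h3 : 1 + (s⁻¹ - 1) = s⁻¹ := by ring
    rw [h3, log_inv] at h2
    have h4 : 2 * (s⁻¹ - 1) / (s⁻¹ - 1 + 2) = -((s - 1) - (s - 1) ^ 2 / (s + 1)) := by
      field_simp; ring
    rw [h4] at h2
    have h5 : θ * ((s - 1) ^ 2 / (2 * s)) ≤ (s - 1) ^ 2 / (s + 1) := by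
      have h6 : θ * (s + 1) ≤ 2 * s := by
        rcases le_total θ 0 with h7 | h7
        · nlinarith
        · have h8 : θ * (s + 1) ≤ θ * (s * (k + 1)) :=
            mul_le_mul_of_nonneg_left (by nlinarith) h7
          nlinarith
      rw [← mul_div_assoc, div_le_div_iff₀ (by positivity) (by positivity)]
      have h9 : 0 ≤ (s - 1) ^ 2 := sq_nonneg _
      nlinarith
    linarith

/-- A lower bound for `log (k ^ 2 / (k - 1))`. -/
lemma log_lower (k : ℝ) (hk : 3 ≤ k) :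
    (k ^ 2 - k + 1) * (2 * k - 1) ≤ (k - 1) * (k + 1) * k * log (k ^ 2 / (k - 1)) := by
  have hk1 : 0 < k - 1 := by linarith
  have hk0 : 0 < k := by linarith
  have hx : 0 < k ^ 2 / (k - 1) / 4 := by positivity
  have h1 := one_sub_inv_le_log_of_pos hx
  have h2 : log (k ^ 2 / (k - 1) / 4) = log (k ^ 2 / (k - 1)) - 2 * log 2 := by
    rw [log_div (by positivity) (by norm_num)]
    have : (4 : ℝ) = 2 ^ 2 := by norm_num
    rw [this, log_pow]; push_cast; ring
  have h3 : (k ^ 2 / (k - 1) / 4)⁻¹ = 4 * (k - 1) / k ^ 2 := by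
    field_simp
  rw [h2, h3] at h1
  have h4 := log_two_gt_d9
  have h5 : 1 + 1.386 - 4 * (k - 1) / k ^ 2 ≤ log (k ^ 2 / (k - 1)) := by linarith
  have h6 : (k - 1) * (k + 1) * k * (1 + 1.386 - 4 * (k - 1) / k ^ 2)
      ≤ (k - 1) * (k + 1) * k * log (k ^ 2 / (k - 1)) :=
    mul_le_mul_of_nonneg_left h5 (by positivity)
  refine le_trans ?_ h6
  have h7 : (k - 1) * (k + 1) * k * (1 + 1.386 - 4 * (k - 1) / k ^ 2)
      = ((k - 1) * (k + 1) * (2.386 * k ^ 2 - 4 * (k - 1))) / k := by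
    field_simp; ring
  rw [h7, le_div_iff₀ hk0]
  obtain ⟨j, hj, rfl⟩ : ∃ j, 0 ≤ j ∧ k = 3 + j := ⟨k - 3, by linarith, by ring⟩
  have hj2 : 0 ≤ j ^ 2 := by positivity
  have hj3 : 0 ≤ j ^ 3 := by positivity
  have hj4 : 0 ≤ j ^ 4 := by positivity
  nlinarith

end Pool.Agent.P.MP_ba77d1_co
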